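import Pool.Agent.Z15.R.Main

/-!
# `F^2(X) = 0` over `ℚ̄` for iterated fibrations in curves with decomposable Jacobian varieties

Let `k = ℚ̄`. The class `Cl k 1` of function fields `K` of varieties `X` over `k` is defined in
`Pool/Agent/Z15/R/Defs.lean`. It is the smallest class with the following properties.

* It contains the curves of any genus (and the point).
* If `X' ⇢ X` is generically finite and dominant, and `X'` is in the class, then `X` is in the class.
* Let `X ⇢ Y` be dominant, such that the differences of two points of the generic fibre are torsion in the
  group of zero-cycles modulo rational equivalence, also after extensions of the field (for example,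
  the general fibres are rational). If `Y` is in the class then `X` is in the class.
* Let `X ⇢ Y` be a fibration in curves of any genus, and let `C` be the generic fibre, a geometrically
  irreducible curve over `L = k(Y)`. Suppose that there are curves `C'`, `H 1, ..., H s` over `L` with maps
  `p : C' → C` and `q i : C' → H i`, such that `∑ c i p_* q_i^* q_i_* p^*` is the identity on the regular
  differentials of `C`, for some rational numbers `c i`; in other words, the Jacobian variety of `C` is
  isogenous to a product of factors of the Jacobian varieties of the `H i`. If `Y` and the total spaces
  of the families `H i` (varieties of the dimension of `X`) are in the class then `X` is in the class.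

For instance, let `X` be a Galois covering of `Y × ℙ¹` with the group `(ℤ/2)^m`, obtained by adjoining the
square roots of functions `f 1, ..., f m`. Then it is enough to know that `Y` and the double coverings of
`Y × ℙ¹` given by the square roots of the products of some of the `f j` are in the class: this is the case
if each of these double coverings is a conic bundle over a variety of the class, or a fibration in curves
with a decomposable Jacobian variety, and so on. The class contains varieties of general type of all
dimensions `n ≥ 2`; the simplest ones are the Campedelli surfaces (`m = 3`, branched along seven lines) and
their products with each other and with one curve of genus at least two.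

**Theorem.** Let `X` be in the class, and let `Ω` be an algebraically closed field which contains `ℚ̄`, of
infinite transcendence degree (for example `Ω = ℂ`). Then a positive multiple of each zero-cycle `c` of
`X × Spec Ω` (at points over the generic point of `X`) is, modulo torsion and modulo the group `Rat`, a sum
of cycles `c i` which are invariant under the automorphisms of `Ω` over fields `F i` of transcendence
degree at most one over `ℚ̄`. Here `Rat` is generated by the images of the divisors of functions on
curves; its elements are rationally equivalent to zero on every complete model.

Consequence (standard, not formalised). Let `X` be a smooth projective model. The class of `c i` in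
`CH_0(X × Spec Ω) ⊗ ℚ` is defined over the algebraic closure of `F i` (specialisation), so
`CH_0(X × Spec Ω) ⊗ ℚ` is supported on a closed subset of `X` of dimension at most one. Therefore (Bloch and
Srinivas, Jannsen) the Albanese map of `X × Spec Ω` is injective up to torsion, and by Roitman's theorem
it is injective; as `CH_0(X) → CH_0(X × Spec Ω)` is injective, `F^2(X) = 0`: Beilinson's conjecture holds
for all the `X` of the class, in all dimensions. The same theorem holds over every field `k` of
characteristic zero and for every `r` instead of one (`Pool.Agent.Z15.R.t_R_MAIN`).

Nothing is assumed on `F^2` or on the differential forms of `X`: the hypotheses are about the curves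
only. The new point is that the relations hold on the complete models, not only modulo cycles which
are supported on divisors: for `dim X > 2` the cycles on a divisor are no better than the cycles on `X`.

The parts were proved by helper1, helper6, helper11, helper60, helper62, helper88, helper93 and helper94.
-/

set_option autoImplicit false

open FF Pool.Agent.Z15.R

namespace Pool.Agent.Results.MP_2eeeac_ag.FibrationsAnyDimension

/-- **The zero-cycles of iterated fibrations in curves with decomposable Jacobian varieties over the
algebraic numbers are supported on a curve.** `K` is the function field of a variety `X` over `ℚ̄` in the
class `Cl ℚ̄ 1`, `Ω` is an algebraically closed field of infinite transcendence degree over `ℚ̄`, and `c` is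
a zero-cycle of `X × Spec Ω`, supported at points over the generic point of `X`. -/
theorem result {K : Type} [Field K] [Algebra (AlgebraicClosure ℚ) K]
    (h : Cl (AlgebraicClosure ℚ) 1 K) {Ω : Type} [Field Ω] [Algebra (AlgebraicClosure ℚ) Ω]
    [IsAlgClosed Ω] (hΩ : Cardinal.aleph0 ≤ Algebra.trdeg (AlgebraicClosure ℚ) Ω)
    (c : (K →ₐ[AlgebraicClosure ℚ] Ω) →₀ ℤ) :
    ∃ N : ℕ, 0 < N ∧ N • c ∈ Supp (AlgebraicClosure ℚ) K Ω 1 :=
  t_R_MAIN (AlgebraicClosure ℚ) 1 K h Ω hΩ c

end Pool.Agent.Results.MP_2eeeac_ag.FibrationsAnyDimension
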