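import Mathlib
import Pool.Agent.Z15.V.Main

/-!
# Injectivity of the Albanese map for quotients of abelian varieties

Let `X` be a complex abelian variety with a polarization, and let `R ⊆ End(X) ⊗ ℚ` be a subalgebra which
is stable under the Rosati involution and of real type: `R ⊗ ℝ` is a product of algebras of real
matrices. Examples: `X = ∏ A_j ^ n_j` and `R = ∏ M_{n_j}(ℚ)`, where the `A_j` are arbitrary abelian
varieties; `R = End(X) ⊗ ℚ`, if `X` has no simple factor whose endomorphism algebra is of Albert type
III or IV. Let `M = (X, p)` be a direct summand of the Chow motive of `X` such that the projector `p`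
acts on the cohomology of `X` through `R`: in each degree the action is a linear combination of
pull-backs by elements of `R`. Let `M = ⊕ M_m` be a Chow-Künneth decomposition and let
`F^ν CH_i(M) = ⊕_(m ≥ 2 i + ν) CH_i(M_m)` be Murre's filtration.

Theorem. If `ν > 0` and `h^(s, t)(M) = 0` for all `s ≠ t` with `s + t ≥ 2 i + ν` and `s ≤ i` or `t ≤ i`
then `F^ν CH_i(M) = 0`.

Let `i = 0` and `ν = 2`: if `h^(m, 0)(M) = 0` for all `m ≥ 2` then `F^2 CH_0(M) = 0`. This is the question
for the varieties with `H^0(W, Ω^m) = 0` for all `m ≥ 2` among the following ones (these consequences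
are not formalised): `W` is a resolution of the singularities of `X / G`, where `G` is a finite group of
automorphisms of the variety `X` whose linear parts belong to `R`, for example any finite group of
automorphisms if `X` has no simple factor of type III or IV, or a group of automorphisms of
`∏ A_j ^ n_j` whose linear parts are in `∏ GL_{n_j}(ℤ)`; or `W` is a resolution of
`(C_1 ^ n_1 × ... × C_k ^ n_k) / G`, where the `C_j` are any curves and the group `G` permutes the factors.

Indeed let `p` be the average of the graphs of the elements of `G`. If the origin of `X` is chosen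
suitably then the elements of `G` are compositions of automorphisms of the abelian variety and
translations of finite order; the graph of a translation of finite order is equal to the diagonal in
`CH(X × X) ⊗ ℚ`. So `p` commutes with the Chow-Künneth projectors `π_m` of Deninger and Murre, and
`P m = π_m ∘ p` is a Chow-Künneth decomposition of `M = (X, p)`. Moreover `CH_0(W)_ℚ = CH_0(X)_ℚ^G` is the
Chow group of zero-cycles of `M`, `H^0(W, Ω^m) = H^0(X, Ω^m)^G`, and `F^2 CH_0(M)` is the kernel of the
Albanese map of `W`, with rational coefficients. The map from `CH_0(W)_ℚ` to `CH_0(W_ℂ)_ℚ` is injective, so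
the theorem over `ℂ` implies the theorem over the algebraic closure of `ℚ`, and the kernel of the
Albanese map has no torsion (Roitman). For `C_1 ^ n_1 × ... × C_k ^ n_k` one uses the product `X` of the
`Jac(C_j) ^ n_j`, and `p` is the composition of the average with the projector to the parts of multidegree
at most one, which is a combination of graphs of diagonal matrices.

The proof. The part `M_m`, `m ≥ 2 i + ν`, has Hodge coniveau at least `i + 1`. By the theorem of
`Pool.Agent.Results.MP_1c689d_ag.RealTypeQuotients` (`Pool.Agent.Z15.Q.q_MAIN`) its cohomology is
contained in the span of the products of `i + 1` classes of divisors and one more class, so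
`P m` is a sum of compositions `X → Y → X` of correspondences of degrees `-(i + 1)` and `i + 1`, or
`-r` and `r` where `Y` is a point (Kimura's theorem and the semisimplicity of motives modulo homological
equivalence), and a cycle of dimension `i` on `M_m` is zero.

The structures `ChowTheory` and `Projectors` (`Pool.Agent.N178.BL.Defs`, `Pool.Agent.N178.MU.Defs`)
collect the known properties of the Chow groups of abelian varieties which are used.
-/

set_option autoImplicit false

namespace Pool.Agent.Results.MP_2eeeac_ag.QuotientsOfAbelianVarieties

open Module Pool.Agent.Y90 Pool.Agent.R915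
open Pool.Agent.N178.BL (ChowTheory HT)
open Pool.Agent.N178.MU (Projectors IsChowKunneth HodgeZero F)
open Pool.Agent.Z15.Q (RealType)
open Pool.Agent.Z15.V (ActsThrough)

/-- Let `M = (X, p)` be a direct summand of the Chow motive of the complex abelian variety `X` such that
`p` acts on the cohomology through an algebra `R` of endomorphisms of real type, and let `P` be a
Chow-Künneth decomposition of `M`. If `ν > 0` and `h^(s, t)(M) = 0` for all `s ≠ t` with `s + t ≥ 2 i + ν`
and `s ≤ i` or `t ≤ i` then `F^ν CH_i(M) = 0`. For `i = 0` and `ν = 2`: if `h^(m, 0)(M) = 0` for all `m ≥ 2`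
then `F^2 CH_0(M) = 0`. The cycles on `X` are the correspondences from a point `O` to `X`. -/
theorem result (C : ChowTheory) (K : Projectors C) (X : AV) (E : X.H → X.H → ℚ)
    (R : Subalgebra ℚ (Module.End ℚ X.H)) (hR : RealType X E R) (p : C.Co X X)
    (P : ℕ → C.Co X X) (hp : ActsThrough R p) (hP : IsChowKunneth p P) (i ν : ℕ) (hν : 1 ≤ ν)
    (h : ∀ s t : ℕ, s ≠ t → 2 * i + ν ≤ s + t → (s ≤ i ∨ t ≤ i) → HodgeZero p s t)
    (O : AV) (hO : finrank ℚ O.H = 0) (z : C.Co O X) (hz : F p P i ν z) : z = 0 :=
  Pool.Agent.Z15.V.filtration K hR hp hP i ν hν h hO hz

end Pool.Agent.Results.MP_2eeeac_ag.QuotientsOfAbelianVarieties
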